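import Pool.Agent.P8H71.SK.Stm

/-! Project SK, package CON: continuity in measure. -/

set_option autoImplicit false

open MeasureTheory Set Filter Topology
open scoped ENNReal symmDiff

namespace Pool.Agent.P8H78.SK

open Pool.Agent.P8H71.SK

theorem con (hC : S_CLO) : S_CON := by
  intro d _ _ m _ hm S hS
  have hcl : IsClosed (Gam d : Set (SLd d)) := hC d
  have hemb : IsClosedEmbedding (fun g : SLd d => (g : Matrix (Fin d) (Fin d) ℝ)) :=
    Matrix.SpecialLinearGroup.isClosedEmbedding_val
  have : SecondCountableTopology (Matrix (Fin d) (Fin d) ℝ) :=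
    inferInstanceAs (SecondCountableTopology (Fin d → Fin d → ℝ))
  have : LocallyCompactSpace (Matrix (Fin d) (Fin d) ℝ) :=
    inferInstanceAs (LocallyCompactSpace (Fin d → Fin d → ℝ))
  have : SecondCountableTopology (SLd d) := hemb.isEmbedding.secondCountableTopology
  have : LocallyCompactSpace (SLd d) := hemb.locallyCompactSpace
  have : T2Space (XX d) := QuotientGroup.instT2Space
  have : LocallyCompactSpace (XX d) := inferInstance
  have : SecondCountableTopology (XX d) := inferInstance
  have : T3Space (XX d) := inferInstance
  have : TopologicalSpace.MetrizableSpace (XX d) := inferInstance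
  have : m.Regular := inferInstance
  have hcont : Continuous (fun p : SLd d × XX d => p.1 • p.2) := continuous_smul
  let F : SLd d → C(XX d, XX d) := fun g => ⟨fun x => g • x, continuous_const_smul g⟩
  have hF : Continuous F := ContinuousMap.continuous_of_continuous_uncurry F hcont
  have h1 := tendsto_measure_symmDiff_preimage_nhds_zero (μ := m) (ν := m) (l := 𝓝 (1 : SLd d))
    (f := F) (g := F 1) (s := S) (hF.tendsto 1) (Eventually.of_forall fun g => hm g) (hm 1)
    hS.nullMeasurableSet (measure_ne_top m S)
  have h2 : (F 1 : XX d → XX d) ⁻¹' S = S := by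
    ext x
    simp [F]
  rw [h2] at h1
  have h3 := (ENNReal.tendsto_toReal ENNReal.zero_ne_top).comp h1
  rw [ENNReal.toReal_zero] at h3
  exact h3

end Pool.Agent.P8H78.SK
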